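import Pool.Agent.helper30.QP.SpecK
import Pool.Agent.helper99.IG.ME

/-! Project QP (MP_ebc808_nt), row HTL. -/

set_option autoImplicit false

open Polynomial Pool.Agent.helper7.IG

noncomputable section

namespace Pool.Agent.QP

/-- elements integral over a subalgebra contained in a valuation ring are in the valuation ring -/
theorem HTL_mem (V : ValuationSubring LL) (hc : ∀ c : kk, algebraMap kk LL c ∈ V) {x y : LL}
    (hx : x ∈ V) (h : IsIntegral (Algebra.adjoin kk {x}) y) : y ∈ V := by
  have hle : ∀ a ∈ Algebra.adjoin kk {x}, a ∈ V := by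
    intro a ha
    induction ha using Algebra.adjoin_induction with
    | mem z hz => rw [Set.mem_singleton_iff] at hz; subst hz; exact hx
    | algebraMap r => exact hc r
    | add a b _ _ ha hb => exact V.add_mem _ _ ha hb
    | mul a b _ _ ha hb => exact V.mul_mem _ _ ha hb
  let φ : Algebra.adjoin kk {x} →+* V :=
    { toFun := fun a => ⟨a.1, hle a.1 a.2⟩
      map_one' := rfl
      map_mul' := fun _ _ => rfl
      map_zero' := rfl
      map_add' := fun _ _ => rfl }
  have h1 : IsIntegral V y := IsIntegral.map_of_comp_eq φ (RingHom.id LL) (by ext a; rfl) h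
  obtain ⟨z, hz⟩ := IsIntegrallyClosed.isIntegral_iff.1 h1
  rw [← hz]
  exact z.2

theorem HTL (hHTA : HTA_stmt) (hHTB : HTB_stmt) (hHTC : HTC_stmt) : HTL_stmt := by
  intro B T k y hB hy hint hval hP
  have hx : Transcendental kk (sig B 1 DDk) := ME_transc_sig hB 1
  have hx0 : sig B 1 DDk ≠ 0 := by
    intro h0
    rw [h0] at hx
    exact hx (isAlgebraic_zero)
  have h1 : IsIntegral (Algebra.adjoin kk {(sig B 1 DDk)⁻¹}) (y * (sig B 1 DDk)⁻¹ ^ T) := by
    apply hHTA (sig B 1 DDk)⁻¹
    intro V hc hx'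
    by_cases hxV : sig B 1 DDk ∈ V
    · exact V.mul_mem _ _ (HTL_mem V hc hxV hint) (pow_mem hx' T)
    · have h2 := hval V hc hxV
      rw [← ValuationSubring.valuation_le_one_iff, map_mul, map_pow, map_inv₀, inv_pow]
      have h3 : V.valuation (sig B 1 DDk) ^ T ≠ 0 :=
        pow_ne_zero _ ((Valuation.ne_zero_iff _).2 hx0)
      calc V.valuation y * (V.valuation (sig B 1 DDk) ^ T)⁻¹
          ≤ V.valuation (sig B 1 DDk) ^ T * (V.valuation (sig B 1 DDk) ^ T)⁻¹ :=
            mul_le_mul_left h2 _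
        _ = 1 := mul_inv_cancel₀ h3
  obtain ⟨A, z, hA, hdeg, hz, heq⟩ := hHTB _ y T k hx hy hint h1 hP
  exact hHTC B (k * T) A y z hB hA hdeg hint hz heq

end Pool.Agent.QP
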